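import Pool.Agent.Helper79.GT.St3

/-!
# Project GT (MP_c2d095_lc), module ONM (variant of the module ONE of the project GS)
-/

set_option autoImplicit false

namespace Pool.Agent.Helper75.GT

open Pool.Agent.Helper79.GT Pool.Agent.Helper79.GS Pool.Agent.Helper19.SK

section

variable {V : Type} [Finite V] (G : SimpleGraph V)

/-- number of empty points -/
private noncomputable def em (Q : Pos V) : ℕ := ({v | Q v = none} : Set V).ncard

/-- number of eyes -/
private noncomputable def mu (Q : Pos V) : ℕ := (eyes G Q true).ncard + (eyes G Q false).ncard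

/-- the potential -/
private noncomputable def phi (Q : Pos V) : ℕ :=
  em Q * (2 * Nat.card V + 1) + (2 * Nat.card V - mu G Q)

private theorem mu_eq (Q : Pos V) (c : Bool) :
    mu G Q = (eyes G Q c).ncard + (eyes G Q (!c)).ncard := by
  unfold mu
  cases c
  · rw [add_comm]; rfl
  · rfl

private theorem ncard_le' (s : Set V) : s.ncard ≤ Nat.card V := by
  rw [← Set.ncard_univ]
  exact Set.ncard_le_ncard (Set.subset_univ s) (Set.toFinite _)

private theorem mu_le (Q : Pos V) : mu G Q ≤ 2 * Nat.card V := by
  unfold mu
  have h1 := ncard_le' (eyes G Q true)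
  have h2 := ncard_le' (eyes G Q false)
  omega

private theorem phi_le (Q : Pos V) :
    phi G Q ≤ Nat.card V * (2 * Nat.card V + 1) + 2 * Nat.card V := by
  unfold phi
  have h1 : em Q ≤ Nat.card V := ncard_le' _
  have h2 := Nat.mul_le_mul_right (2 * Nat.card V + 1) h1
  omega

private theorem step {Q : Pos V} (hA : Alive G Q) {c : Bool} {e : V} (he : Q e = none)
    (hone : ({v | put Q e (some c) v ≠ none ∧ play G Q c e v = none} : Set V).ncard ≤ 1)
    (hne : play G Q c e ≠ Q) :
    phi G (play G Q c e) ≤ phi G Q ∧
      (¬ (goArena G).mv (!c) (play G Q c e) Q → phi G (play G Q c e) + 1 ≤ phi G Q) := by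
  have hput : ∀ v d, play G Q c e v = some d → put Q e (some c) v = some d := fun v d h =>
    clear_some (clear_some h)
  by_cases hem : ({v | put Q e (some c) v ≠ none ∧ play G Q c e v = none} : Set V) = ∅
  · -- nothing is removed
    have h1 : ({v | play G Q c e v = none} : Set V) ⊂ {v | Q v = none} := by
      refine ⟨fun v hv => ?_, fun hcon => ?_⟩
      · have hv' : play G Q c e v = none := hv
        by_contra hQ
        have h2 : v ∈ ({v | put Q e (some c) v ≠ none ∧ play G Q c e v = none} : Set V) := by
          refine ⟨?_, hv'⟩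
          by_cases hve : v = e
          · subst hve
            exact absurd he hQ
          · rw [put_ne _ hve]
            exact hQ
        rw [hem] at h2
        exact h2
      · have h3 : play G Q c e e = none := hcon he
        have h2 : e ∈ ({v | put Q e (some c) v ≠ none ∧ play G Q c e v = none} : Set V) :=
          ⟨by rw [put_same]; exact Option.some_ne_none _, h3⟩
        rw [hem] at h2
        exact h2
    have h4 : em (play G Q c e) + 1 ≤ em Q := Set.ncard_lt_ncard h1 (Set.toFinite _)
    have h5 : phi G (play G Q c e) + 1 ≤ phi G Q := by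
      unfold phi
      have h6 := Nat.mul_le_mul_right (2 * Nat.card V + 1) h4
      rw [add_mul, one_mul] at h6
      omega
    exact ⟨by omega, fun _ => h5⟩
  · obtain ⟨v, hv1, hv2⟩ := Set.nonempty_iff_ne_empty.2 hem
    have huniq : ∀ w, put Q e (some c) w ≠ none → play G Q c e w = none → w = v := by
      intro w h1 h2
      exact (Set.ncard_le_one (Set.toFinite _)).1 hone w ⟨h1, h2⟩ v ⟨hv1, hv2⟩
    have hve : v ≠ e := by
      rintro rfl
      apply hne
      funext w
      by_cases hw : w = v
      · subst hw
        rw [hv2, he]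
      · by_cases h0 : Q w = none
        · rw [none_of h0 hw, h0]
        · have h1 : play G Q c v w ≠ none := by
            intro h2
            exact hw (huniq w (by rw [put_ne _ hw]; exact h0) h2)
          obtain ⟨d, hd⟩ := Option.ne_none_iff_exists'.1 h1
          have h3 := hput w d hd
          rw [put_ne _ hw] at h3
          rw [hd, h3]
    have hQv : Q v ≠ none := by
      rw [put_ne _ hve] at hv1
      exact hv1
    obtain ⟨d, hd⟩ := Option.ne_none_iff_exists'.1 hQv
    by_cases hdc : d = c
    · -- an own stone is removed
      exfalso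
      subst hdc
      set R := clear G (!d) (put Q e (some d)) with hR
      have hown : ∀ y, (y = e ∨ Q y = some d) → R y = some d := by
        intro y hy
        refine clear_other ?_ (bne_c d).symm
        rcases hy with rfl | hy
        · exact put_same _ _ _
        · rw [put_ne _ (ne_e he hy), hy]
      have hnl : ¬ Lib G R v := by
        intro hl
        have h1 : play G Q d e v = R v := clear_lib hl
        rw [hv2, hown v (Or.inr hd)] at h1
        cases h1
      obtain ⟨a, u, h1, h2, h3⟩ := hA v hQv
      have h4 : Chain G R v a := chain_mono (c := d) (fun y hy => hown y (Or.inr hy)) hd h1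
      by_cases hu : u = e
      · subst hu
        have h5 : Chain G R v u := by
          refine h4.tail ⟨h2, ?_⟩
          rw [hown _ (Or.inl rfl), hown a (Or.inr (by rw [chain_eq h1, hd]))]
        have h6 : ¬ Lib G R u := fun hl => hnl (lib_chain h5 hl)
        have h7 : play G Q d u u = none := clear_dead (hown u (Or.inl rfl)) h6
        exact hve (huniq u (by rw [put_same]; exact Option.some_ne_none _) h7).symm
      · exact hnl ⟨a, u, h4, h2, clear_none (by rw [put_ne _ hu, h3])⟩
    · have hd' := bool_cases hdc
      subst hd'
      have hstay : ∀ w, Q w = some (!c) → w ≠ v → play G Q c e w = some (!c) := by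
        intro w hw hwv
        have hwe := ne_e he hw
        have h1 : play G Q c e w ≠ none := by
          intro h2
          exact hwv (huniq w (by rw [put_ne _ hwe, hw]; exact Option.some_ne_none _) h2)
        obtain ⟨d', hd'⟩ := Option.ne_none_iff_exists'.1 h1
        have h3 := hput w d' hd'
        rw [put_ne _ hwe, hw] at h3
        rw [hd', h3]
      have hemp : em (play G Q c e) ≤ em Q := by
        have h1 : ({w | play G Q c e w = none} : Set V) ⊆ insert v (({w | Q w = none} : Set V) \ {e}) := by
          intro w hw
          have hw' : play G Q c e w = none := hw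
          by_cases hwv : w = v
          · exact Or.inl hwv
          · right
            by_cases h0 : put Q e (some c) w = none
            · have hwe : w ≠ e := by
                rintro rfl
                rw [put_same] at h0
                cases h0
              rw [put_ne _ hwe] at h0
              exact ⟨h0, hwe⟩
            · exact absurd (huniq w h0 hw') hwv
        have h2 : (({w | Q w = none} : Set V) \ {e}).ncard + 1 = em Q :=
          Set.ncard_sdiff_singleton_add_one (show e ∈ ({w | Q w = none} : Set V) from he)
            (Set.toFinite _)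
        have h3 := Set.ncard_le_ncard h1 (Set.toFinite _)
        have h4 := Set.ncard_insert_le v (({w | Q w = none} : Set V) \ {e})
        unfold em at h2 ⊢
        omega
      have hup := eye_up hA he hd hv2 hstay
      have hdown := eye_down (G := G) (P := Q) (c := c) (e := e) he
      have hm1 := mu_eq G Q c
      have hm2 := mu_eq G (play G Q c e) c
      have hm3 := mu_le G (play G Q c e)
      have hmul := Nat.mul_le_mul_right (2 * Nat.card V + 1) hemp
      refine ⟨by unfold phi; omega, fun hirr => ?_⟩
      have hnot : e ∉ eyes G Q (!c) := by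
        intro hey
        apply hirr
        obtain ⟨-, u, -, -, h3, -, -, h6⟩ := ko_of hA he hey.2 hd hv2 hstay
        exact ⟨u, by rw [h3, put_same], h6.symm, hne.symm⟩
      have hneq : (eyes G Q (!c)).ncard ≠ (eyes G (play G Q c e) (!c)).ncard + 1 :=
        fun h => hnot (eye_eq he h)
      unfold phi
      omega

/-- number of stones -/
private theorem num_add (Q : Pos V) :
    num Q true + num Q false = ({v | Q v ≠ none} : Set V).ncard := by
  unfold num
  rw [← Set.ncard_union_eq ?_ (Set.toFinite _) (Set.toFinite _)]
  · congr 1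
    ext v
    simp only [Set.mem_union, Set.mem_ofPred_eq]
    constructor
    · rintro (h | h) <;> rw [h] <;> exact Option.some_ne_none _
    · intro h
      obtain ⟨d, hd⟩ := Option.ne_none_iff_exists'.1 h
      cases d
      · exact Or.inr hd
      · exact Or.inl hd
  · rw [Set.disjoint_left]
    intro v h1 h2
    have h1' : Q v = some true := h1
    have h2' : Q v = some false := h2
    rw [h1'] at h2'
    cases h2'

private theorem removed {Q : Pos V} {c : Bool} {e : V} (he : Q e = none)
    (hle : num Q true + num Q false ≤ num (play G Q c e) true + num (play G Q c e) false) :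
    ({v | put Q e (some c) v ≠ none ∧ play G Q c e v = none} : Set V).ncard ≤ 1 := by
  rw [num_add, num_add] at hle
  have h1 : ({v | put Q e (some c) v ≠ none} : Set V) = insert e ({v | Q v ≠ none} : Set V) := by
    ext v
    simp only [Set.mem_ofPred_eq, Set.mem_insert_iff]
    by_cases hv : v = e
    · subst hv
      simp [put_same]
    · rw [put_ne _ hv]
      simp [hv]
  have h2 : (insert e ({v | Q v ≠ none} : Set V)).ncard = ({v | Q v ≠ none} : Set V).ncard + 1 := by
    refine Set.ncard_insert_of_notMem ?_ (Set.toFinite _)
    intro h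
    exact h he
  have h3 : ({v | put Q e (some c) v ≠ none} : Set V) =
      ({v | play G Q c e v ≠ none} : Set V) ∪
        ({v | put Q e (some c) v ≠ none ∧ play G Q c e v = none} : Set V) := by
    ext v
    simp only [Set.mem_union, Set.mem_ofPred_eq]
    constructor
    · intro h
      by_cases hp : play G Q c e v = none
      · exact Or.inr ⟨h, hp⟩
      · exact Or.inl hp
    · rintro (h | h)
      · obtain ⟨d, hd⟩ := Option.ne_none_iff_exists'.1 h
        have h4 : put Q e (some c) v = some d := clear_some (clear_some hd)
        rw [h4]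
        exact Option.some_ne_none _
      · exact h.1
  have h4 : (({v | play G Q c e v ≠ none} : Set V) ∪
      ({v | put Q e (some c) v ≠ none ∧ play G Q c e v = none} : Set V)).ncard =
      ({v | play G Q c e v ≠ none} : Set V).ncard +
      ({v | put Q e (some c) v ≠ none ∧ play G Q c e v = none} : Set V).ncard := by
    refine Set.ncard_union_eq ?_ (Set.toFinite _) (Set.toFinite _)
    rw [Set.disjoint_left]
    intro v hv1 hv2
    exact hv1 hv2.2
  rw [← h3, h1, h2] at h4
  omega

/-- One placement. -/
private theorem one {U : Bool → Pos V → Pos V → Prop} {P x : Pos V} {c : Bool} {e : V} (k k' : ℕ)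
    (he : x e = none) (hne : play G x c e ≠ x) (hU : U c x (play G x c e))
    (hk : k' = k ∨ (k' = k + 1 ∧ ¬ (goArena G).mv (!c) (play G x c e) x))
    (ih : ∃ k2, Sq U P k2 x ∧ ((x = P ∧ k = 0 ∧ k2 = 0) ∨ (Alive G x ∧ phi G x + k ≤
      (k2 + 1) * (Nat.card V * (2 * Nat.card V + 1) + 2 * Nat.card V + 1) + k2))) :
    ∃ k2, Sq U P k2 (play G x c e) ∧ (Alive G (play G x c e) ∧ phi G (play G x c e) + k' ≤
      (k2 + 1) * (Nat.card V * (2 * Nat.card V + 1) + 2 * Nat.card V + 1) + k2) := by
  obtain ⟨k2, hs, hcase⟩ := ih
  have hy := phi_le G (play G x c e)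
  have hal : Alive G (play G x c e) := alive_play _ _ _
  set Φ : ℕ := Nat.card V * (2 * Nat.card V + 1) + 2 * Nat.card V + 1 with hΦ
  have hk1 : k' ≤ k + 1 := by
    rcases hk with rfl | ⟨rfl, -⟩ <;> omega
  by_cases hle : num x true + num x false ≤ num (play G x c e) true + num (play G x c e) false
  · refine ⟨k2, Sq.keep k2 c x _ hs hU hle, hal, ?_⟩
    rcases hcase with ⟨-, rfl, rfl⟩ | ⟨hA, hph⟩
    · rw [zero_add, one_mul]
      omega
    · have hst := step G hA he (removed G he hle) hne
      rcases hk with rfl | ⟨rfl, hirr⟩
      · have := hst.1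
        omega
      · have := hst.2 hirr
        omega
  · refine ⟨k2 + 1, Sq.drop k2 c x _ hs hU (by omega), hal, ?_⟩
    have e1 : (k2 + 1 + 1) * Φ = (k2 + 1) * Φ + Φ := by ring
    rcases hcase with ⟨-, rfl, rfl⟩ | ⟨hA, hph⟩
    · rw [e1]
      omega
    · rw [e1]
      omega

end

/-- Module ONM. -/
theorem hONM : StONM := by
  intro V _ G tc D pt m P hF k x hx
  have key : ∃ k2, Sq (und (goG G tc) D) P k2 x ∧ ((x = P ∧ k = 0 ∧ k2 = 0) ∨
      (Alive G x ∧ phi G x + k ≤
        (k2 + 1) * (Nat.card V * (2 * Nat.card V + 1) + 2 * Nat.card V + 1) + k2)) := by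
    induction hx with
    | refl => exact ⟨0, Sq.refl, Or.inl ⟨rfl, rfl, rfl⟩⟩
    | rev k c x y hxr hmv hmv' ih =>
      have hU : und (goG G tc) D c x y := hmv
      obtain ⟨e, he, hy, hne⟩ := hU.1
      subst hy
      obtain ⟨k2, h1, h2⟩ := one G k k he hne hU (Or.inl rfl) ih
      exact ⟨k2, h1, Or.inr h2⟩
    | irr k c x y hxr hmv hmv' ih =>
      have hU : und (goG G tc) D c x y := hmv
      have hirr : ¬ (goG G tc).mv (!c) y x := by
        intro h
        apply hmv'
        have h2 : (goG G tc).mv (!(!c)) x y := by
          rw [Bool.not_not]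
          exact hU.1
        exact ⟨h, Or.inl h2⟩
      obtain ⟨e, he, hy, hne⟩ := hU.1
      subst hy
      obtain ⟨k2, h1, h2⟩ := one G k (k + 1) he hne hU (Or.inr ⟨rfl, hirr⟩) ih
      exact ⟨k2, h1, Or.inr h2⟩
  obtain ⟨k2, hs, hcase⟩ := key
  have hk2 : k2 ≤ m := hF k2 x hs
  rcases hcase with ⟨-, rfl, -⟩ | ⟨-, hph⟩
  · exact Nat.zero_le _
  · have h1 : Nat.card V * (2 * Nat.card V + 1) + 2 * Nat.card V + 1 ≤
        2 * (Nat.card V + 1) ^ 2 := by
      have e1 : 2 * (Nat.card V + 1) ^ 2 =
          Nat.card V * (2 * Nat.card V + 1) + 3 * Nat.card V + 2 := by ring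
      omega
    have h2 : (k2 + 1) * (Nat.card V * (2 * Nat.card V + 1) + 2 * Nat.card V + 1) ≤
        (m + 1) * (2 * (Nat.card V + 1) ^ 2) := Nat.mul_le_mul (by omega) h1
    have h3 : (m + 1) * (2 * (Nat.card V + 1) ^ 2 + 1) =
        (m + 1) * (2 * (Nat.card V + 1) ^ 2) + (m + 1) := by ring
    rw [h3]
    omega

end Pool.Agent.Helper75.GT
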